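import Pool.Agent.Helper31.KS.Common

/-! Swarm KS, part AU1. -/

set_option autoImplicit false

open Finset Filter

namespace KS.H31

open KS KS.Inst
open scoped Classical

/-- the split of the time: `n₁ + n₂ + 3 RR = t`, upper bound for `n μ` and for the two upper deviations -/
theorem split_upper {K Δ : ℕ} {I : Inst K} {s0 L A : ℝ} (h : Fact I s0 L A) (hCH : S_CHEB) (hTN : S_TN)
    (hv : I.Valid Δ) (hs : s0 ≤ I.sig2) {n : ℕ} (k0 : Fin K)
    (hn : (n : ℝ) * I.mu ≤ 0.55 * Real.log I.N) (hA : 2400 * K * L ^ 2 ≤ A) :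
    I.Tn n (fun _ x => if 65 / 100 * Real.log I.N < x then (1 : ℝ) else 0) k0 0 ≤
      21600 * K * L ^ 2 / A := by
  have hl := h.l0
  have hmu := h.mu1
  obtain ⟨t1, -⟩ := hTN K Δ I hv
  refine (t1 n _ _ ?_ k0 0).trans (cheb2 hCH hv h hs n k0 ?_ hA)
  · intro k x
    by_cases h1 : 65 / 100 * Real.log I.N < x
    · rw [if_pos h1, if_pos]
      rw [le_abs]
      left
      linarith
    · rw [if_neg h1]
      split_ifs <;> norm_num
  · have h0 : (0 : ℝ) ≤ n := Nat.cast_nonneg n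
    nlinarith

/-- lower deviations -/
theorem split_lower {K Δ : ℕ} {I : Inst K} {s0 L A C a : ℝ} (h : Fact I s0 L A) (hCH : S_CHEB) (hTN : S_TN)
    (hv : I.Valid Δ) (hs : s0 ≤ I.sig2) {n : ℕ} (k0 : Fin K) (hC : 0 < C) (hCA : 8 * K * L ≤ C ^ 2 * A)
    (hn : (n : ℝ) * I.mu ≤ 0.55 * Real.log I.N) (ha : a + C * (I.w * I.mu) ≤ n * I.mu) :
    I.Tn n (fun _ x => if x < a then (1 : ℝ) else 0) k0 0 ≤ 24 * K / C ^ 2 := by
  have hl := h.l0
  have hmu := h.mu1
  obtain ⟨t1, -⟩ := hTN K Δ I hv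
  refine (t1 n _ _ ?_ k0 0).trans ((cheb1 hCH hv h hs n k0 hC hCA).trans ?_)
  · intro k x
    by_cases h1 : x < a
    · rw [if_pos h1, if_pos]
      rw [le_abs]
      right
      linarith
    · rw [if_neg h1]
      split_ifs <;> norm_num
  · have hK : (0 : ℝ) ≤ K := Nat.cast_nonneg K
    rw [div_le_div_iff₀ (by positivity) (by positivity)]
    have : (n : ℝ) * I.mu ≤ Real.log I.N := by linarith
    have h3 := mul_le_mul_of_nonneg_left this (show 0 ≤ 24 * (K : ℝ) * C ^ 2 by positivity)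
    linarith

theorem pow_bound {al x : ℝ} (h1 : al ≤ 1) (m : ℕ) (hx : 0 < x) (hm : x ≤ al * m) :
    (1 - al) ^ m ≤ 1 / x := by
  have e1 : (1 - al) ≤ Real.exp (-al) := by have := Real.add_one_le_exp (-al); linarith
  calc (1 - al) ^ m ≤ (Real.exp (-al)) ^ m := pow_le_pow_left₀ (by linarith) e1 m
    _ = Real.exp (-(al * m)) := by rw [← Real.exp_nat_mul]; congr 1; ring
    _ ≤ Real.exp (-x) := Real.exp_le_exp.2 (by linarith)
    _ = 1 / Real.exp x := by rw [Real.exp_neg, one_div]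
    _ ≤ 1 / x := by
      apply one_div_le_one_div_of_le hx
      have := Real.add_one_le_exp x
      linarith

theorem au1 (hUBA : S_UBA) (hID : S_ID) (hCH : S_CHEB) (hC1 : S_C1) (hR : S_REV) (hTN : S_TN) : S_AU1 := by
  intro K Δ s0 ep hK hs0 hep
  have hK' : (2 : ℝ) ≤ K := by exact_mod_cast hK
  set C : ℝ := 1 + 10000 * (K : ℝ) ^ 2 / ep with hC
  have hC1' : 1 ≤ C := by
    have : 0 ≤ 10000 * (K : ℝ) ^ 2 / ep := by positivity
    linarith
  have hC0 : 0 < C := by linarith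
  refine ⟨C, hC0, fun de hde => ?_⟩
  set L : ℝ := max (Real.log Δ) 1 with hL
  have hL1 : 1 ≤ L := le_max_right _ _
  have hLΔ : Real.log Δ ≤ L := le_max_left _ _
  set A : ℝ := 1 + 128 * K * L + 2000 * L ^ 2 * C ^ 2 + 216000 * (K : ℝ) ^ 2 * L ^ 2 / ep + 2400 * K * L ^ 2 +
    20 * L / ep with hA
  have hA1 : 1 ≤ A := by
    have : 0 ≤ 128 * K * L + 2000 * L ^ 2 * C ^ 2 + 216000 * (K : ℝ) ^ 2 * L ^ 2 / ep + 2400 * K * L ^ 2 +
      20 * L / ep := by positivity
    linarith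
  have hA0 : 0 < A := by linarith
  have p1 : 0 ≤ 128 * (K : ℝ) * L := by positivity
  have p2 : 0 ≤ 2000 * L ^ 2 * C ^ 2 := by positivity
  have p3 : 0 ≤ 216000 * (K : ℝ) ^ 2 * L ^ 2 / ep := by positivity
  have p4 : 0 ≤ 2400 * (K : ℝ) * L ^ 2 := by positivity
  have p5 : 0 ≤ 20 * L / ep := by positivity
  obtain ⟨N₁, hN₁⟩ := hUBA K Δ (ep / 4) de 3 hK (by positivity) hde (by norm_num)
  obtain ⟨l₁, hl₁⟩ := log_le_sqrt (16 * L + 1) (10 * L) (show 0 < Real.sqrt (s0 / L) / 4 by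
    have : 0 < s0 / L := by positivity
    have := Real.sqrt_pos.2 this
    positivity)
  obtain ⟨l₂, hl₂⟩ := log_le_sqrt (100 * L) (100 * L) one_pos
  refine ⟨A, max N₁ (Real.exp (max 1 (max l₁ l₂))), ?_⟩
  intro I hv hN hAl hs t ht
  have hN1 : N₁ ≤ I.N := (le_max_left _ _).trans hN
  have hNpos : (0 : ℝ) < I.N := by exact_mod_cast hv.npos
  have hl : max 1 (max l₁ l₂) ≤ Real.log I.N := by
    rw [Real.le_log_iff_exp_le hNpos]
    exact (le_max_right _ _).trans hN
  have hl1 : 1 ≤ Real.log I.N := (le_max_left _ _).trans hl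
  have hll₁ : l₁ ≤ Real.log I.N := ((le_max_left _ _).trans (le_max_right _ _)).trans hl
  have hll₂ : l₂ ≤ Real.log I.N := ((le_max_right _ _).trans (le_max_right _ _)).trans hl
  have hF : Fact I s0 L A := fact_of hC1 hv hs0 hLΔ hL1 hA1 hl1 hAl hs
  have hE1 := hl₁ _ hll₁
  have hE2 := hl₂ _ hll₂
  have hmu1 := hF.mu1
  have hmu0 := hF.mu0
  have hmuL := hF.mu2
  have hW0 := hF.W0
  have hal0 := hF.al0
  have hal1 := hF.al1
  have hWl := hF.large
  set l : ℝ := Real.log I.N with hldef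
  have hl0 : 0 < l := by linarith
  have hsq : Real.sqrt l ≤ l := by
    rw [Real.sqrt_le_left hl0.le]
    have : l * 1 ≤ l * l := mul_le_mul_of_nonneg_left hl1 hl0.le
    linarith [sq l]
  have hlogl : 0 ≤ Real.log l := Real.log_nonneg hl1
  have hRR := RR_le (I := I) hl1
  rw [← hldef] at hRR
  -- small quantities
  have hW1 : C * (I.w * I.mu) ≤ 0.05 * l := by
    have := hF.small (η := 0.05 / C) (by positivity) (by
      have : (0.05 / C) ^ 2 * A = 0.0025 * A / C ^ 2 := by field_simp; norm_num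
      rw [this, le_div_iff₀ (by positivity)]
      linarith)
    calc C * (I.w * I.mu) ≤ C * (0.05 / C * l) := mul_le_mul_of_nonneg_left this hC0.le
      _ = 0.05 * l := by field_simp
  have hWl' : (16 * L + 1) * Real.log l + 10 * L ≤ C * (I.w * I.mu) / 4 := by
    have h1 : Real.sqrt (s0 / L) / 4 * Real.sqrt l ≤ (I.w * I.mu) / 4 := by linarith
    have h2 : (I.w * I.mu) ≤ C * (I.w * I.mu) := le_mul_of_one_le_left hW0 hC1'
    linarith
  have hsmall2 : 100 * L * Real.log l + 100 * L ≤ l := by linarith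
  have hsmall : 100 * Real.log l + 100 ≤ l := by
    have : (100 * Real.log l + 100) * 1 ≤ (100 * Real.log l + 100) * L :=
      mul_le_mul_of_nonneg_left hL1 (by positivity)
    linarith
  -- the time
  set t0 : ℕ := ⌈l / I.mu + C * I.w⌉₊ with ht0
  have hw0 := hF.w0
  have hbase : 0 ≤ l / I.mu + C * I.w := by positivity
  have ht0le : t0 ≤ t := Nat.ceil_le.2 ht
  have ht0a : l / I.mu + C * I.w ≤ t0 := Nat.le_ceil _
  have ht0b : (t0 : ℝ) ≤ l / I.mu + C * I.w + 1 := (Nat.ceil_lt_add_one hbase).le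
  have ht0aμ : l + C * (I.w * I.mu) ≤ t0 * I.mu := by
    have := mul_le_mul_of_nonneg_right ht0a hmu0.le
    have e : (l / I.mu + C * I.w) * I.mu = l + C * (I.w * I.mu) := by field_simp
    linarith
  have ht0bμ : (t0 : ℝ) * I.mu ≤ l + C * (I.w * I.mu) + I.mu := by
    have := mul_le_mul_of_nonneg_right ht0b hmu0.le
    have e : (l / I.mu + C * I.w + 1) * I.mu = l + C * (I.w * I.mu) + I.mu := by field_simp
    linarith
  have ht1 : (1 : ℝ) ≤ t0 := by
    have h1 : 0 < l / I.mu + C * I.w := by positivity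
    exact_mod_cast Nat.ceil_pos.2 h1
  have hmul : I.mu ≤ l := by
    have : 0 ≤ 100 * L * Real.log l := by positivity
    linarith
  have ht0Cm : (t0 : ℝ) ≤ 3 * l := by
    have h1 : (t0 - 1 : ℝ) * 0.69 ≤ (t0 - 1 : ℝ) * I.mu := mul_le_mul_of_nonneg_left hmu1 (by linarith)
    linarith
  have hRRt : 3 * RR I ≤ t0 := by
    have h1 : (3 * RR I : ℝ) * I.mu ≤ t0 * I.mu := by
      have h2 : (3 * RR I : ℝ) * I.mu ≤ (3 * (5 * Real.log l + 1)) * L := by
        apply mul_le_mul (by linarith) hmuL hmu0.le (by positivity)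
      have h4 : 0 ≤ L * Real.log l := by positivity
      have h5 : 0 ≤ C * (I.w * I.mu) := by positivity
      linarith
    have h3 : (3 * RR I : ℝ) ≤ t0 := le_of_mul_le_mul_right h1 hmu0
    exact_mod_cast h3
  -- the probability
  have key : ∀ n1 n2 : ℕ, n1 + n2 + 3 * RR I = t0 → n1 ≤ n2 → n2 ≤ n1 + 1 → ∀ k1 k2,
      1 - ep / 2 ≤ K * I.ideal n1 n2 (l + 2 * Real.log l) (65 / 100 * l) k1 k2 := by
    intro n1 n2 hsum h12 h21 k1 k2
    have hsum' : (n1 : ℝ) + n2 + 3 * RR I = t0 := by exact_mod_cast hsum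
    have h12' : (n1 : ℝ) ≤ n2 := by exact_mod_cast h12
    have h21' : (n2 : ℝ) ≤ n1 + 1 := by exact_mod_cast h21
    have hR0 : (0 : ℝ) ≤ RR I := Nat.cast_nonneg _
    have hRμ : (RR I : ℝ) * I.mu ≤ (5 * Real.log l + 1) * L :=
      mul_le_mul hRR hmuL hmu0.le (by positivity)
    have hRμ0 : 0 ≤ (RR I : ℝ) * I.mu := by positivity
    have hsumμ : (n1 : ℝ) * I.mu + n2 * I.mu + 3 * (RR I * I.mu) = t0 * I.mu := by
      rw [← hsum']; ring
    have h12μ : (n1 : ℝ) * I.mu ≤ n2 * I.mu := mul_le_mul_of_nonneg_right h12' hmu0.le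
    have hLl : 0 ≤ L * Real.log l := by positivity
    have hCW : 0 ≤ C * (I.w * I.mu) := by positivity
    have h21μ : (n2 : ℝ) * I.mu ≤ n1 * I.mu + I.mu := by
      have := mul_le_mul_of_nonneg_right h21' hmu0.le
      linarith
    have hn1lo : (l / 2 + Real.log l) + C / 4 * (I.w * I.mu) ≤ n1 * I.mu := by
      have : C / 4 * (I.w * I.mu) = C * (I.w * I.mu) / 4 := by ring
      rw [this]
      linarith
    have hn2lo : (l / 2 + Real.log l) + C / 4 * (I.w * I.mu) ≤ n2 * I.mu := hn1lo.trans h12μ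
    have hn2hi : (n2 : ℝ) * I.mu ≤ 0.55 * l := by linarith
    have hn1hi : (n1 : ℝ) * I.mu ≤ 0.55 * l := h12μ.trans hn2hi
    have hcond1 : 2400 * K * L ^ 2 ≤ A := by linarith
    have hcond2 : 8 * K * L ≤ (C / 4) ^ 2 * A := by
      have h1 : 8 * K * L ≤ 1 / 16 * A := by linarith
      have h2 : 1 / 16 ≤ (C / 4) ^ 2 := by
        have e1 : (C / 4) ^ 2 = C ^ 2 / 16 := by ring
        have e2 : 1 ≤ C ^ 2 := one_le_pow₀ hC1'
        rw [e1]
        linarith
      exact h1.trans (mul_le_mul_of_nonneg_right h2 hA0.le)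
    have b1 := split_lower hF hCH hTN hv hs (n := n1) k1 (C := C / 4) (by positivity) hcond2 hn1hi hn1lo
    have b2 := split_lower hF hCH hTN hv hs (n := n2) k2 (C := C / 4) (by positivity) hcond2 hn2hi hn2lo
    have b3 := split_upper hF hCH hTN hv hs k1 hn1hi hcond1
    have b4 := split_upper hF hCH hTN hv hs k2 hn2hi hcond1
    have b5 : (1 - I.al) ^ (n1 + n2 + 1) ≤ 1 / (A / (2 * L)) := by
      apply pow_bound hal1 _ (by positivity)
      rw [div_le_iff₀ (by positivity)]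
      have h1 : l / 2 ≤ ((n1 + n2 + 1 : ℕ) : ℝ) * I.mu := by
        push_cast
        linarith
      have h2 : l / 2 ≤ ((n1 + n2 + 1 : ℕ) : ℝ) * L :=
        h1.trans (mul_le_mul_of_nonneg_left hmuL (Nat.cast_nonneg _))
      have h3 := mul_le_mul_of_nonneg_left h2 hal0.le
      have h4 := hF.hA
      rw [← hldef] at h4
      linarith
    have hCC : (K : ℝ) * (24 * K / (C / 4) ^ 2) ≤ ep / 10 := by
      have e1 : (K : ℝ) * (24 * K / (C / 4) ^ 2) = 384 * (K : ℝ) ^ 2 / C ^ 2 := by field_simp; norm_num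
      rw [e1, div_le_iff₀ (by positivity)]
      have e2 : 10000 * (K : ℝ) ^ 2 ≤ ep * C := by
        rw [hC]
        have : ep * (1 + 10000 * (K : ℝ) ^ 2 / ep) = ep + 10000 * (K : ℝ) ^ 2 := by field_simp
        linarith
      have e3 : ep * C * 1 ≤ ep * C * C := mul_le_mul_of_nonneg_left hC1' (by positivity)
      have e4 : ep / 10 * C ^ 2 = ep * C * C / 10 := by ring
      rw [e4]
      have e5 : 0 ≤ (K : ℝ) ^ 2 := by positivity
      linarith
    have hAA : (K : ℝ) * (21600 * K * L ^ 2 / A) ≤ ep / 10 := by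
      have e1 : (K : ℝ) * (21600 * K * L ^ 2 / A) = 21600 * (K : ℝ) ^ 2 * L ^ 2 / A := by ring
      rw [e1, div_le_iff₀ hA0]
      have e2 : 216000 * (K : ℝ) ^ 2 * L ^ 2 / ep ≤ A := by linarith
      rw [div_le_iff₀ hep] at e2
      linarith
    have hAL : 1 / (A / (2 * L)) ≤ ep / 10 := by
      rw [one_div_div, div_le_iff₀ hA0]
      have e2 : 20 * L / ep ≤ A := by linarith
      rw [div_le_iff₀ hep] at e2
      linarith
    have hK0 : (0 : ℝ) ≤ K := by linarith
    have c1 := mul_le_mul_of_nonneg_left b1 hK0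
    have c2 := mul_le_mul_of_nonneg_left b2 hK0
    have c3 := mul_le_mul_of_nonneg_left b3 hK0
    have c4 := mul_le_mul_of_nonneg_left b4 hK0
    have main := (hID K Δ I hv hal0 n1 n2 (l + 2 * Real.log l) (l / 2 + Real.log l) (l / 2 + Real.log l)
      (65 / 100 * l) k1 k2 (by linarith)).1
    linarith
  have hprob := hN₁ I hv hN1 t0 (1 - ep / 2) (by linarith) ht0Cm hRRt key
  refine le_trans (pr_mono ?_) hprob
  intro η hη hE
  have := D_mono hR hv hη ht0le
  linarith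

end KS.H31
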