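import Pool.Agent.Helper31.KS.AU1

/-! Swarm KS, part AU2. -/

set_option autoImplicit false

open Finset Filter

namespace KS.H31

open KS KS.Inst
open scoped Classical

/-- anti-concentration beyond the threshold `a` -/
theorem pz_beyond {K : ℕ} {I : Inst K} {s0 L A a c0 de : ℝ} (h : Fact I s0 L A)
    (hTN : ∀ n (f g : Fin K → ℝ → ℝ), (∀ k x, f k x ≤ g k x) → ∀ k x, I.Tn n f k x ≤ I.Tn n g k x)
    (hc0 : 0 < c0) {n : ℕ} (k0 l : Fin K)
    (hPZ : de ≤ I.Tn n (fun k x => if k = l ∧ n * I.mu + c0 * Real.sqrt (I.nu2 * n) ≤ x then (1 : ℝ)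
      else 0) k0 0)
    (hn : Real.log I.N / 4 ≤ n * I.mu)
    (ha : a ≤ n * I.mu + c0 * Real.sqrt (s0 / (4 * L)) * Real.sqrt (Real.log I.N)) :
    de ≤ I.Tn n (fun k x => if k = l ∧ a ≤ x then (1 : ℝ) else 0) k0 0 := by
  refine hPZ.trans (hTN n _ _ ?_ k0 0)
  have hL := h.L1
  have hL0 : 0 < L := by linarith
  have hl := h.l0
  have hs0 := h.hs0
  have h1 : Real.sqrt (s0 / (4 * L)) * Real.sqrt (Real.log I.N) ≤ Real.sqrt (I.nu2 * n) := by
    rw [← Real.sqrt_mul (by positivity)]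
    apply Real.sqrt_le_sqrt
    have h2 : Real.log I.N / (4 * L) ≤ n := by
      rw [div_le_iff₀ (by positivity)]
      have h3 : (n : ℝ) * I.mu ≤ n * L := mul_le_mul_of_nonneg_left h.mu2 (Nat.cast_nonneg n)
      linarith
    calc s0 / (4 * L) * Real.log I.N = s0 * (Real.log I.N / (4 * L)) := by ring
      _ ≤ I.nu2 * n := mul_le_mul h.nul h2 (by positivity) h.nu0.le
  have h4 : a ≤ n * I.mu + c0 * Real.sqrt (I.nu2 * n) := by
    have := mul_le_mul_of_nonneg_left h1 hc0.le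
    rw [← mul_assoc] at this
    linarith
  intro k x
  by_cases h5 : k = l ∧ n * I.mu + c0 * Real.sqrt (I.nu2 * n) ≤ x
  · rw [if_pos h5, if_pos ⟨h5.1, h4.trans h5.2⟩]
  · rw [if_neg h5]
    split_ifs <;> norm_num

theorem au2 (hUBA : S_UBA) (hID : S_ID) (hPZ : S_PZ) (hCH : S_CHEB) (hC1 : S_C1) (hR : S_REV) (hTN : S_TN) :
    S_AU2 := by
  intro K Δ s0 hK hs0
  have hK' : (2 : ℝ) ≤ K := by exact_mod_cast hK
  have hK0 : (0 : ℝ) ≤ K := by linarith
  obtain ⟨c0, hc0, δ, hδ, A0, hA0', hpz⟩ := hPZ K Δ s0 hK hs0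
  set kap : ℝ := min 1 (K * δ ^ 2) with hkap
  have hkap0 : 0 < kap := lt_min one_pos (by positivity)
  have hkap1 : kap ≤ 1 := min_le_left _ _
  have hkap2 : kap ≤ K * δ ^ 2 := min_le_right _ _
  refine ⟨1 - kap / 4, by linarith, by linarith, fun de hde => ?_⟩
  set L : ℝ := max (Real.log Δ) 1 with hL
  have hL1 : 1 ≤ L := le_max_right _ _
  have hL0 : 0 < L := by linarith
  have hLΔ : Real.log Δ ≤ L := le_max_left _ _
  set A : ℝ := 1 + 2400 * K * L ^ 2 + 86400 * (K : ℝ) ^ 2 * L ^ 2 / kap + 4 * L * A0 with hA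
  have p1 : 0 ≤ 2400 * (K : ℝ) * L ^ 2 := by positivity
  have p2 : 0 ≤ 86400 * (K : ℝ) ^ 2 * L ^ 2 / kap := by positivity
  have p3 : 0 ≤ 4 * L * A0 := by positivity
  have hA1 : 1 ≤ A := by linarith
  have hA0 : 0 < A := by linarith
  obtain ⟨N₁, hN₁⟩ := hUBA K Δ (kap / 8) de 3 hK (by positivity) hde (by norm_num)
  obtain ⟨l₁, hl₁⟩ := log_le_sqrt (8 * L + 1) (2 * L) (show 0 < c0 * Real.sqrt (s0 / (4 * L)) by
    have : 0 < s0 / (4 * L) := by positivity
    have := Real.sqrt_pos.2 this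
    positivity)
  obtain ⟨l₂, hl₂⟩ := log_le_sqrt (100 * L) (100 * L) one_pos
  refine ⟨A, max N₁ (Real.exp (max 1 (max l₁ l₂))), ?_⟩
  intro I hv hN hAl hs t ht
  have hN1 : N₁ ≤ I.N := (le_max_left _ _).trans hN
  have hNpos : (0 : ℝ) < I.N := by exact_mod_cast hv.npos
  have hl : max 1 (max l₁ l₂) ≤ Real.log I.N := by
    rw [Real.le_log_iff_exp_le hNpos]
    exact (le_max_right _ _).trans hN
  have hl1 : 1 ≤ Real.log I.N := (le_max_left _ _).trans hl
  have hll₁ : l₁ ≤ Real.log I.N := ((le_max_left _ _).trans (le_max_right _ _)).trans hl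
  have hll₂ : l₂ ≤ Real.log I.N := ((le_max_right _ _).trans (le_max_right _ _)).trans hl
  have hF : Fact I s0 L A := fact_of hC1 hv hs0 hLΔ hL1 hA1 hl1 hAl hs
  have hE1 := hl₁ _ hll₁
  have hE2 := hl₂ _ hll₂
  have hmu1 := hF.mu1
  have hmu0 := hF.mu0
  have hmuL := hF.mu2
  have hal0 := hF.al0
  obtain ⟨tn1, -⟩ := hTN K Δ I hv
  have hlpos := hF.l0
  have hsq : Real.sqrt (Real.log I.N) ≤ Real.log I.N := by
    rw [Real.sqrt_le_left hlpos.le]
    have : Real.log I.N * 1 ≤ Real.log I.N * Real.log I.N := mul_le_mul_of_nonneg_left hl1 hlpos.le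
    linarith [sq (Real.log I.N)]
  have hlogl : 0 ≤ Real.log (Real.log I.N) := Real.log_nonneg hl1
  have hRR := RR_le (I := I) hl1
  have hLl : 0 ≤ L * Real.log (Real.log I.N) := by positivity
  have hsmall2 : 100 * L * Real.log (Real.log I.N) + 100 * L ≤ Real.log I.N := by linarith
  have hmul : I.mu ≤ 0.01 * Real.log I.N := by linarith
  -- the time
  set t0 : ℕ := ⌈Real.log I.N / I.mu⌉₊ with ht0
  have hbase : 0 < Real.log I.N / I.mu := by positivity
  have ht0le : t0 ≤ t := Nat.ceil_le.2 ht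
  have ht0a : Real.log I.N / I.mu ≤ t0 := Nat.le_ceil _
  have ht0b : (t0 : ℝ) ≤ Real.log I.N / I.mu + 1 := (Nat.ceil_lt_add_one hbase.le).le
  have ht0aμ : Real.log I.N ≤ t0 * I.mu := by
    rwa [div_le_iff₀ hmu0] at ht0a
  have ht0bμ : (t0 : ℝ) * I.mu ≤ Real.log I.N + I.mu := by
    have := mul_le_mul_of_nonneg_right ht0b hmu0.le
    have e : (Real.log I.N / I.mu + 1) * I.mu = Real.log I.N + I.mu := by field_simp
    linarith
  have ht1 : (1 : ℝ) ≤ t0 := by exact_mod_cast Nat.ceil_pos.2 hbase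
  have ht0Cm : (t0 : ℝ) ≤ 3 * Real.log I.N := by
    have h1 : (t0 - 1 : ℝ) * 0.69 ≤ (t0 - 1 : ℝ) * I.mu := mul_le_mul_of_nonneg_left hmu1 (by linarith)
    linarith
  have hRRt : 3 * RR I ≤ t0 := by
    have h1 : (3 * RR I : ℝ) * I.mu ≤ t0 * I.mu := by
      have h2 : (3 * RR I : ℝ) * I.mu ≤ (3 * (5 * Real.log (Real.log I.N) + 1)) * L := by
        apply mul_le_mul (by linarith) hmuL hmu0.le (by positivity)
      linarith
    have h3 : (3 * RR I : ℝ) ≤ t0 := le_of_mul_le_mul_right h1 hmu0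
    exact_mod_cast h3
  have key : ∀ n1 n2 : ℕ, n1 + n2 + 3 * RR I = t0 → n1 ≤ n2 → n2 ≤ n1 + 1 → ∀ k1 k2,
      kap / 2 ≤ K * I.ideal n1 n2 (Real.log I.N + 2 * Real.log (Real.log I.N)) (65 / 100 * Real.log I.N) k1 k2 := by
    intro n1 n2 hsum h12 h21 k1 k2
    have hsum' : (n1 : ℝ) + n2 + 3 * RR I = t0 := by exact_mod_cast hsum
    have h12' : (n1 : ℝ) ≤ n2 := by exact_mod_cast h12
    have h21' : (n2 : ℝ) ≤ n1 + 1 := by exact_mod_cast h21
    have hRμ : (RR I : ℝ) * I.mu ≤ (5 * Real.log (Real.log I.N) + 1) * L :=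
      mul_le_mul hRR hmuL hmu0.le (by positivity)
    have hRμ0 : 0 ≤ (RR I : ℝ) * I.mu := by positivity
    have hsumμ : (n1 : ℝ) * I.mu + n2 * I.mu + 3 * (RR I * I.mu) = t0 * I.mu := by
      rw [← hsum']; ring
    have h12μ : (n1 : ℝ) * I.mu ≤ n2 * I.mu := mul_le_mul_of_nonneg_right h12' hmu0.le
    have h21μ : (n2 : ℝ) * I.mu ≤ n1 * I.mu + I.mu := by
      have := mul_le_mul_of_nonneg_right h21' hmu0.le
      linarith
    have hn1q : Real.log I.N / 4 ≤ n1 * I.mu := by linarith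
    have hn2q : Real.log I.N / 4 ≤ n2 * I.mu := by linarith
    have hn2hi : (n2 : ℝ) * I.mu ≤ 0.55 * Real.log I.N := by linarith
    have hn1hi : (n1 : ℝ) * I.mu ≤ 0.55 * Real.log I.N := h12μ.trans hn2hi
    have ha1 : Real.log I.N / 2 + Real.log (Real.log I.N) ≤
        n1 * I.mu + c0 * Real.sqrt (s0 / (4 * L)) * Real.sqrt (Real.log I.N) := by linarith
    have ha2 : Real.log I.N / 2 + Real.log (Real.log I.N) ≤
        n2 * I.mu + c0 * Real.sqrt (s0 / (4 * L)) * Real.sqrt (Real.log I.N) := by linarith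
    have hAn : ∀ n : ℕ, Real.log I.N / 4 ≤ n * I.mu → A0 ≤ I.al * n := by
      intro n hn
      have h1 : Real.log I.N / 4 ≤ n * L :=
        hn.trans (mul_le_mul_of_nonneg_left hmuL (Nat.cast_nonneg _))
      have h2 := mul_le_mul_of_nonneg_left h1 hal0.le
      have h3 := hF.hA
      have h4 : 4 * L * A0 ≤ A := by linarith
      have h5 : L * A0 ≤ L * (I.al * n) := by linarith
      exact le_of_mul_le_mul_left h5 hL0
    have q1 : ∀ j : Fin K, δ ≤ I.Tn n1 (fun k x => if k = j ∧ Real.log I.N / 2 + Real.log (Real.log I.N) ≤ x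
        then (1 : ℝ) else 0) k1 0 := fun j =>
      pz_beyond hF tn1 hc0 k1 j (hpz I hv hal0 hs n1 k1 j (hAn n1 hn1q)).1 hn1q ha1
    have q2 : ∀ j : Fin K, δ ≤ I.Tn n2 (fun k x => if k = j ∧ Real.log I.N / 2 + Real.log (Real.log I.N) ≤ x
        then (1 : ℝ) else 0) k2 0 := fun j =>
      pz_beyond hF tn1 hc0 k2 j (hpz I hv hal0 hs n2 k2 j (hAn n2 hn2q)).1 hn2q ha2
    have hcond1 : 2400 * K * L ^ 2 ≤ A := by linarith
    have b3 := split_upper hF hCH hTN hv hs k1 hn1hi hcond1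
    have b4 := split_upper hF hCH hTN hv hs k2 hn2hi hcond1
    have hAA : (K : ℝ) * (21600 * K * L ^ 2 / A) ≤ kap / 4 := by
      have e1 : (K : ℝ) * (21600 * K * L ^ 2 / A) = 21600 * (K : ℝ) ^ 2 * L ^ 2 / A := by ring
      rw [e1, div_le_iff₀ hA0]
      have e2 : 86400 * (K : ℝ) ^ 2 * L ^ 2 / kap ≤ A := by linarith
      rw [div_le_iff₀ hkap0] at e2
      linarith
    have c3 := mul_le_mul_of_nonneg_left b3 hK0
    have c4 := mul_le_mul_of_nonneg_left b4 hK0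
    have main := (hID K Δ I hv hal0 n1 n2 (Real.log I.N + 2 * Real.log (Real.log I.N))
      (Real.log I.N / 2 + Real.log (Real.log I.N)) (Real.log I.N / 2 + Real.log (Real.log I.N))
      (65 / 100 * Real.log I.N) k1 k2 (by linarith)).2
    have hsumge : (K : ℝ) * δ ^ 2 ≤ ∑ l, I.Tn n1 (fun k x => if k = l ∧
        Real.log I.N / 2 + Real.log (Real.log I.N) ≤ x then (1 : ℝ) else 0) k1 0
        * I.Tn n2 (fun k x => if k = l ∧ Real.log I.N / 2 + Real.log (Real.log I.N) ≤ x then (1 : ℝ)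
          else 0) k2 0 := by
      have := Finset.card_nsmul_le_sum (univ : Finset (Fin K)) (fun l => I.Tn n1 (fun k x => if k = l ∧
        Real.log I.N / 2 + Real.log (Real.log I.N) ≤ x then (1 : ℝ) else 0) k1 0
        * I.Tn n2 (fun k x => if k = l ∧ Real.log I.N / 2 + Real.log (Real.log I.N) ≤ x then (1 : ℝ)
          else 0) k2 0) (δ ^ 2) (fun j _ => by
          rw [sq]
          exact mul_le_mul (q1 j) (q2 j) hδ.le (hδ.le.trans (q1 j)))
      rw [nsmul_eq_mul, Finset.card_univ, Fintype.card_fin] at this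
      exact this
    linarith
  have hprob := hN₁ I hv hN1 t0 (kap / 2) (by linarith) ht0Cm hRRt key
  refine le_trans (pr_mono ?_) hprob
  intro η hη hE
  have := D_mono hR hv hη ht0le
  linarith

end KS.H31
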