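import Pool.Agent.Helper96.KS.Parts

/-! Swarm KS: common tools for AU1, AU2, AL1, AL2. -/

set_option autoImplicit false

open Finset Filter Asymptotics

namespace KS.H31

open KS KS.Inst
open scoped Classical

/-- collected facts on an instance -/
structure Fact {K : ℕ} (I : Inst K) (s0 L A : ℝ) : Prop where
  hs0 : 0 < s0
  L1 : 1 ≤ L
  A1 : 1 ≤ A
  l1 : 1 ≤ Real.log I.N
  mu1 : 0.69 ≤ I.mu
  mu2 : I.mu ≤ L
  al0 : 0 < I.al
  al1 : I.al ≤ 1
  nul : s0 ≤ I.nu2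
  nuu : I.nu2 ≤ 3 * L ^ 2 / I.al
  hA : A ≤ I.al * Real.log I.N
  w0 : 0 ≤ I.w
  wsq : (I.w * I.mu) ^ 2 = I.nu2 * Real.log I.N / I.mu

theorem log_dg {K Δ : ℕ} {I : Inst K} (hv : I.Valid Δ) (x : I.H) :
    0 ≤ Real.log (I.dg x) ∧ Real.log (I.dg x) ≤ Real.log Δ := by
  have h3 := hv.d3 x.1
  have h4 := hv.dΔ x.1
  have h5 : 2 ≤ I.dg x := by unfold Inst.dg; omega
  have h6 : I.dg x ≤ Δ := by unfold Inst.dg; omega
  constructor
  · apply Real.log_nonneg
    exact_mod_cast (by omega : 1 ≤ I.dg x)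
  · apply Real.log_le_log
    · exact_mod_cast (by omega : 0 < I.dg x)
    · exact_mod_cast h6

theorem fact_of {K Δ : ℕ} {I : Inst K} (hC1 : S_C1) (hv : I.Valid Δ) {s0 L A : ℝ} (hs0 : 0 < s0)
    (hL : Real.log Δ ≤ L) (hL1 : 1 ≤ L) (hA1 : 1 ≤ A) (hl : 1 ≤ Real.log I.N)
    (hA : A ≤ I.al * Real.log I.N) (hs : s0 ≤ I.sig2) : Fact I s0 L A := by
  have hal0 : 0 < I.al := by
    by_contra hcon
    push Not at hcon
    have : I.al * Real.log I.N ≤ 0 := mul_nonpos_of_nonpos_of_nonneg hcon (by linarith)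
    linarith
  obtain ⟨c1, c2, c3, c4, -⟩ := hC1 K Δ I hv hal0
  have hN : (0 : ℝ) < I.N := by exact_mod_cast hv.npos
  have hK : (2 : ℝ) ≤ K := by exact_mod_cast hv.hK
  have hal1 : I.al ≤ 1 := by
    unfold Inst.al
    rw [div_le_one hN]
    exact_mod_cast hv.al1
  have hmu1 : 0.69 ≤ I.mu := by
    have := Real.log_two_gt_d9
    linarith
  have hmu0 : 0 < I.mu := by linarith
  have hmuk : ∀ k, 0 ≤ I.muk k ∧ I.muk k ≤ L := by
    intro k
    unfold Inst.muk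
    constructor
    · apply mul_nonneg (by positivity)
      exact Finset.sum_nonneg (fun x _ => (log_dg hv x).1)
    · have h1 : ∑ x ∈ I.Hk k, Real.log (I.dg x) ≤ (I.Hk k).card * L := by
        have := Finset.sum_le_card_nsmul (I.Hk k) (fun x => Real.log (I.dg x)) L
          (fun x _ => (log_dg hv x).2.trans hL)
        rwa [nsmul_eq_mul] at this
      have h2 : (K : ℝ) * (I.Hk k).card = I.N := by exact_mod_cast hv.bal k
      calc (K : ℝ) / I.N * ∑ x ∈ I.Hk k, Real.log (I.dg x) ≤ (K : ℝ) / I.N * ((I.Hk k).card * L) :=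
            mul_le_mul_of_nonneg_left h1 (by positivity)
        _ = (K * (I.Hk k).card) / I.N * L := by ring
        _ = L := by rw [h2, div_self hN.ne', one_mul]
  have hsig : I.sig2 ≤ L ^ 2 := by
    unfold Inst.sig2
    have h1 : ∑ x : I.H, (Real.log (I.dg x) - I.mu) ^ 2 ≤ I.N * L ^ 2 := by
      have := Finset.sum_le_card_nsmul (univ : Finset I.H) (fun x => (Real.log (I.dg x) - I.mu) ^ 2) (L ^ 2)
        (fun x _ => by
          have := log_dg hv x
          apply sq_le_sq'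
          · linarith
          · linarith)
      rw [nsmul_eq_mul] at this
      exact this
    calc (1 / (I.N : ℝ)) * ∑ x : I.H, (Real.log (I.dg x) - I.mu) ^ 2 ≤ (1 / (I.N : ℝ)) * (I.N * L ^ 2) :=
          mul_le_mul_of_nonneg_left h1 (by positivity)
      _ = L ^ 2 := by field_simp
  have hsum : (1 / (K : ℝ)) * ∑ k, (I.muk k - I.mu) ^ 2 ≤ L ^ 2 := by
    have h1 : ∑ k : Fin K, (I.muk k - I.mu) ^ 2 ≤ K * L ^ 2 := by
      have := Finset.sum_le_card_nsmul (univ : Finset (Fin K)) (fun k => (I.muk k - I.mu) ^ 2) (L ^ 2)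
        (fun k _ => by
          have := hmuk k
          apply sq_le_sq'
          · linarith
          · linarith)
      rw [nsmul_eq_mul, Finset.card_univ, Fintype.card_fin] at this
      exact this
    calc (1 / (K : ℝ)) * ∑ k, (I.muk k - I.mu) ^ 2 ≤ (1 / (K : ℝ)) * (K * L ^ 2) :=
          mul_le_mul_of_nonneg_left h1 (by positivity)
      _ = L ^ 2 := by field_simp
  have hsum0 : 0 ≤ (1 / (K : ℝ)) * ∑ k, (I.muk k - I.mu) ^ 2 :=
    mul_nonneg (by positivity) (Finset.sum_nonneg (fun k _ => sq_nonneg _))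
  have hnuu : I.nu2 ≤ 3 * L ^ 2 / I.al := by
    rw [c1]
    have h1 : 2 * (1 - I.al) / I.al * ((1 / (K : ℝ)) * ∑ k, (I.muk k - I.mu) ^ 2) ≤
        2 * 1 / I.al * L ^ 2 := by
      apply mul_le_mul _ hsum hsum0 (by positivity)
      apply div_le_div_of_nonneg_right _ hal0.le
      linarith
    have h2 : L ^ 2 ≤ L ^ 2 / I.al := by
      rw [le_div_iff₀ hal0]
      nlinarith [sq_nonneg L]
    calc I.sig2 + _ ≤ L ^ 2 / I.al + 2 * 1 / I.al * L ^ 2 := add_le_add (hsig.trans h2) h1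
      _ = 3 * L ^ 2 / I.al := by ring
  have hw2 : I.w ^ 2 = I.nu2 / I.mu ^ 3 * Real.log I.N := by
    unfold Inst.w
    rw [Real.sq_sqrt]
    have : 0 ≤ I.nu2 := by linarith
    have : 0 ≤ Real.log I.N := by linarith
    positivity
  refine ⟨hs0, hL1, hA1, hl, hmu1, c4.trans hL, hal0, hal1, hs.trans c2, hnuu, hA, Real.sqrt_nonneg _, ?_⟩
  rw [mul_pow, hw2]
  field_simp

namespace Fact

variable {K : ℕ} {I : Inst K} {s0 L A : ℝ} (h : Fact I s0 L A)
include h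

theorem W0 : 0 ≤ I.w * I.mu := mul_nonneg h.w0 (by have := h.mu1; linarith)

theorem mu0 : 0 < I.mu := by have := h.mu1; linarith

theorem l0 : 0 < Real.log I.N := by have := h.l1; linarith

theorem nu0 : 0 < I.nu2 := h.hs0.trans_le h.nul

theorem small {η : ℝ} (hη : 0 ≤ η) (hA : 5 * L ^ 2 ≤ η ^ 2 * A) :
    I.w * I.mu ≤ η * Real.log I.N := by
  have hl := h.l0
  have hmu := h.mu0
  have hal := h.al0
  apply le_of_sq_le_sq _ (by positivity)
  rw [h.wsq]
  have h1 : I.nu2 * Real.log I.N / I.mu ≤ 5 * L ^ 2 / I.al * Real.log I.N := by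
    rw [div_le_iff₀ hmu]
    have h2 : I.nu2 * Real.log I.N ≤ 3 * L ^ 2 / I.al * Real.log I.N := mul_le_mul_of_nonneg_right h.nuu hl.le
    have h3 : 3 * L ^ 2 / I.al * Real.log I.N ≤ 5 * L ^ 2 / I.al * Real.log I.N * I.mu := by
      have h4 : 0 ≤ L ^ 2 / I.al * Real.log I.N := by positivity
      have h5 := h.mu1
      have e1 : 3 * L ^ 2 / I.al * Real.log I.N = 3 * (L ^ 2 / I.al * Real.log I.N) := by ring
      have e2 : 5 * L ^ 2 / I.al * Real.log I.N * I.mu = (5 * I.mu) * (L ^ 2 / I.al * Real.log I.N) := by ring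
      rw [e1, e2]
      exact mul_le_mul_of_nonneg_right (by linarith) h4
    linarith
  have h2 : 5 * L ^ 2 / I.al * Real.log I.N ≤ (η * Real.log I.N) ^ 2 := by
    rw [div_mul_eq_mul_div, div_le_iff₀ hal]
    have h3 : 5 * L ^ 2 * Real.log I.N ≤ η ^ 2 * A * Real.log I.N := mul_le_mul_of_nonneg_right hA hl.le
    have h4 : η ^ 2 * A * Real.log I.N ≤ η ^ 2 * (I.al * Real.log I.N) * Real.log I.N :=
      mul_le_mul_of_nonneg_right (mul_le_mul_of_nonneg_left h.hA (sq_nonneg η)) hl.le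
    calc 5 * L ^ 2 * Real.log I.N ≤ η ^ 2 * (I.al * Real.log I.N) * Real.log I.N := h3.trans h4
      _ = (η * Real.log I.N) ^ 2 * I.al := by ring
  exact h1.trans h2

theorem large : Real.sqrt (s0 / L) * Real.sqrt (Real.log I.N) ≤ I.w * I.mu := by
  have hl := h.l0
  have hL := h.L1
  rw [← Real.sqrt_mul (div_nonneg h.hs0.le (by linarith))]
  apply Real.sqrt_le_iff.2 ⟨h.W0, _⟩
  rw [h.wsq]
  have h1 : s0 / L ≤ I.nu2 / I.mu := div_le_div₀ h.nu0.le h.nul h.mu0 h.mu2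
  calc s0 / L * Real.log I.N ≤ I.nu2 / I.mu * Real.log I.N := mul_le_mul_of_nonneg_right h1 hl.le
    _ = _ := by ring

end Fact

/-- Chebyshev, deviations of order `w` -/
theorem cheb1 (hCH : S_CHEB) {K Δ : ℕ} {I : Inst K} {s0 L A : ℝ} (hv : I.Valid Δ) (h : Fact I s0 L A)
    (hs : s0 ≤ I.sig2) (n : ℕ) (k0 : Fin K) {C : ℝ} (hC : 0 < C) (hCA : 8 * K * L ≤ C ^ 2 * A) :
    I.Tn n (fun _ x => if C * (I.w * I.mu) ≤ |x - n * I.mu| then (1 : ℝ) else 0) k0 0 ≤
      24 * K * (n * I.mu) / (C ^ 2 * Real.log I.N) := by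
  have hl := h.l0
  have hmu := h.mu0
  have hal := h.al0
  have hnu := h.nu0
  have hWpos : 0 < I.w * I.mu := by
    have h1 : 0 < (I.w * I.mu) ^ 2 := by rw [h.wsq]; positivity
    rcases h.W0.lt_or_eq with h2 | h2
    · exact h2
    · rw [← h2] at h1; norm_num at h1
  have hK : (0 : ℝ) ≤ K := Nat.cast_nonneg K
  have hsq : (C * (I.w * I.mu)) ^ 2 = C ^ 2 * (I.nu2 * Real.log I.N / I.mu) := by rw [mul_pow, h.wsq]
  have := hCH K Δ I hv h.al0 s0 h.hs0 hs n k0 (C * (I.w * I.mu)) (by positivity) (by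
    rw [hsq, div_le_iff₀ hal]
    have h1 : 8 * K * I.mu ≤ C ^ 2 * (I.al * Real.log I.N) := by
      have h2 : 8 * K * I.mu ≤ 8 * K * L := mul_le_mul_of_nonneg_left h.mu2 (by positivity)
      have h3 : C ^ 2 * A ≤ C ^ 2 * (I.al * Real.log I.N) := mul_le_mul_of_nonneg_left h.hA (sq_nonneg C)
      linarith
    have h4 : C ^ 2 * (I.nu2 * Real.log I.N / I.mu) * I.al =
        (C ^ 2 * (I.al * Real.log I.N)) * (I.nu2 / I.mu) := by ring
    have h5 : 8 * K * I.nu2 = (8 * K * I.mu) * (I.nu2 / I.mu) := by field_simp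
    rw [h4, h5]
    exact mul_le_mul_of_nonneg_right h1 (by positivity))
  refine this.trans (le_of_eq ?_)
  rw [hsq]
  field_simp

/-- Chebyshev, deviations of order `log N` -/
theorem cheb2 (hCH : S_CHEB) {K Δ : ℕ} {I : Inst K} {s0 L A : ℝ} (hv : I.Valid Δ) (h : Fact I s0 L A)
    (hs : s0 ≤ I.sig2) (n : ℕ) (k0 : Fin K) (hn : (n : ℝ) ≤ 3 * Real.log I.N) (hA : 2400 * K * L ^ 2 ≤ A) :
    I.Tn n (fun _ x => if 0.1 * Real.log I.N ≤ |x - n * I.mu| then (1 : ℝ) else 0) k0 0 ≤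
      21600 * K * L ^ 2 / A := by
  have hl := h.l0
  have hmu := h.mu0
  have hal := h.al0
  have hnu := h.nu0
  have hA1 := h.A1
  have hA0 : 0 < A := by linarith
  have hK : (0 : ℝ) ≤ K := Nat.cast_nonneg K
  have hnual : I.nu2 * I.al ≤ 3 * L ^ 2 := by
    have := h.nuu
    rwa [le_div_iff₀ hal] at this
  have := hCH K Δ I hv h.al0 s0 h.hs0 hs n k0 (0.1 * Real.log I.N) (by positivity) (by
    rw [div_le_iff₀ hal]
    -- 8 K nu2 ≤ 0.01 l^2 al;  nu2 ≤ 3 L^2 / al; al^2 l^2 ≥ A^2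
    have h1 : A * 1 ≤ A * A := mul_le_mul_of_nonneg_left hA1 hA0.le
    have h2 : A * A ≤ (I.al * Real.log I.N) * (I.al * Real.log I.N) :=
      mul_le_mul h.hA h.hA hA0.le (by positivity)
    have h3 : 8 * K * (I.nu2 * I.al) ≤ 8 * K * (3 * L ^ 2) := mul_le_mul_of_nonneg_left hnual (by positivity)
    have h4 : 8 * K * I.nu2 * I.al ≤ (0.1 * Real.log I.N) ^ 2 * I.al * I.al := by
      have e1 : (0.1 * Real.log I.N) ^ 2 * I.al * I.al =
        0.01 * ((I.al * Real.log I.N) * (I.al * Real.log I.N)) := by ring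
      rw [e1]
      nlinarith
    exact le_of_mul_le_mul_right h4 hal)
  refine this.trans ?_
  rw [div_le_div_iff₀ (by positivity) hA0]
  -- 24 K nu2 n A ≤ 21600 K L^2 (0.1 l)^2
  have h1 : 24 * K * I.nu2 * n * A ≤ 24 * K * I.nu2 * (3 * Real.log I.N) * (I.al * Real.log I.N) := by
    apply mul_le_mul _ h.hA hA0.le (by positivity)
    exact mul_le_mul_of_nonneg_left hn (by positivity)
  have h2 : 24 * K * I.nu2 * (3 * Real.log I.N) * (I.al * Real.log I.N) =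
      (72 * K * Real.log I.N ^ 2) * (I.nu2 * I.al) := by ring
  have h3 : (72 * K * Real.log I.N ^ 2) * (I.nu2 * I.al) ≤ (72 * K * Real.log I.N ^ 2) * (3 * L ^ 2) :=
    mul_le_mul_of_nonneg_left hnual (by positivity)
  calc 24 * K * I.nu2 * n * A ≤ (72 * K * Real.log I.N ^ 2) * (3 * L ^ 2) := by rw [← h2] at h3; linarith
    _ = 21600 * K * L ^ 2 * (0.1 * Real.log I.N) ^ 2 := by ring

theorem D_mono (hR : S_REV) {K Δ : ℕ} {I : Inst K} (hv : I.Valid Δ) {η : I.H → I.H} (hη : η ∈ I.Om)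
    {t t' : ℕ} (h : t ≤ t') : I.D η t' ≤ I.D η t := by
  obtain ⟨-, -, -, -, -, -, h7, -⟩ := hR K Δ I hv η hη
  have hne : Nonempty I.H := by
    have := hv.npos
    exact Fintype.card_pos_iff.1 this
  unfold Inst.D
  obtain ⟨m, rfl⟩ := Nat.exists_eq_add_of_le h
  apply ciSup_mono
  · exact (Set.finite_range _).bddAbove
  · intro x
    exact h7 t m x

theorem pr_mono {K : ℕ} {I : Inst K} {E E' : (I.H → I.H) → Prop} (h : ∀ η ∈ I.Om, E η → E' η) :
    I.pr E ≤ I.pr E' := by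
  unfold Inst.pr
  apply div_le_div_of_nonneg_right _ (Nat.cast_nonneg _)
  have : I.Om.filter E ⊆ I.Om.filter E' := by
    intro η hη
    rw [Finset.mem_filter] at hη ⊢
    exact ⟨hη.1, h η hη.1 hη.2⟩
  exact_mod_cast Finset.card_le_card this

/-- `M₁ log ℓ + M₂ ≤ c √ℓ` for large `ℓ` -/
theorem log_le_sqrt (M₁ M₂ : ℝ) {c : ℝ} (hc : 0 < c) :
    ∃ l₀ : ℝ, ∀ l, l₀ ≤ l → M₁ * Real.log l + M₂ ≤ c * Real.sqrt l := by
  have h1 : (fun l : ℝ => Real.log l) =o[atTop] (fun l : ℝ => l ^ (1 / 2 : ℝ)) :=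
    isLittleO_log_rpow_atTop (by norm_num)
  have h2 : (fun _ : ℝ => M₂) =o[atTop] (fun l : ℝ => l ^ (1 / 2 : ℝ)) := by
    rw [isLittleO_const_left]
    right
    exact tendsto_norm_atTop_atTop.comp (tendsto_rpow_atTop (by norm_num))
  have h3 := ((h1.const_mul_left M₁).add h2).bound hc
  obtain ⟨l₀, hl₀⟩ := Filter.eventually_atTop.1 (h3.and (eventually_ge_atTop 0))
  refine ⟨l₀, fun l hl => ?_⟩
  obtain ⟨h4, h5⟩ := hl₀ l hl
  have h6 := (le_abs_self _).trans h4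
  rw [Real.norm_eq_abs, abs_of_nonneg (Real.rpow_nonneg h5 _), ← Real.sqrt_eq_rpow] at h6
  exact h6

theorem RR_le {K : ℕ} {I : Inst K} (h : 1 ≤ Real.log I.N) : (RR I : ℝ) ≤ 5 * Real.log (Real.log I.N) + 1 := by
  unfold RR
  exact (Nat.ceil_lt_add_one (by have := Real.log_nonneg h; positivity)).le

end KS.H31
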